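import Pool.Agent.R634.HLoc.Dig

/-!
Covers of product-type subsets of the Cantor set, for MP_09a4e8_an.
-/

open Filter Topology Set MeasureTheory
open scoped NNReal ENNReal

namespace Pool.Agent.R634.HLoc

section

variable {N : ℕ} {θ : ℝ} (hN : 0 < N) (hθ : 0 < θ) (hNθ : N * θ < 1)

lemma valX_continuous : Continuous (valX hN hθ hNθ) :=
  Continuous.subtype_mk (val_continuous hN hθ hNθ) _

lemma valX_injective : Function.Injective (valX hN hθ hNθ) := by
  intro u v h
  exact val_injective hN hθ hNθ (congrArg Subtype.val h)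

lemma measure_prod_le {d : ℝ} (hd : 0 < d) (T : ℕ → Finset (Fin N)) (L : ℕ)
    (hT : ∀ j, (T j).card ≤ L) :
    μH[d] (valX hN hθ hNθ '' {u | ∀ j, u j ∈ T j}) ≤
      liminf (fun n : ℕ => ENNReal.ofReal ((L * θ ^ d) ^ n)) atTop := by
  classical
  have hθ1 := theta_lt_one hN hθ hNθ
  have hθd : 0 < θ ^ d := Real.rpow_pos_of_pos hθ _
  have hdiam : ∀ (n : ℕ) (w : (j : Fin n) → T j),
      Metric.ediam (valX hN hθ hNθ '' {u | ∀ j : Fin n, u j = (w j : Fin N)}) ≤
        ENNReal.ofReal (θ ^ n) := by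
    intro n w
    refine Metric.ediam_le ?_
    rintro x ⟨u, hu, rfl⟩ y ⟨v, hv, rfl⟩
    rw [edist_dist]
    refine ENNReal.ofReal_le_ofReal ?_
    exact dist_upper hN hθ hNθ u v n (fun j hj => (hu ⟨j, hj⟩).trans (hv ⟨j, hj⟩).symm)
  refine (Measure.hausdorffMeasure_le_liminf_sum (ι := fun n : ℕ => (j : Fin n) → T j) d
    (valX hN hθ hNθ '' {u | ∀ j, u j ∈ T j}) (l := atTop)
    (fun n => ENNReal.ofReal (θ ^ n)) ?_
    (fun n w => valX hN hθ hNθ '' {u | ∀ j : Fin n, u j = (w j : Fin N)})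
    (Eventually.of_forall (fun n w => hdiam n w)) (Eventually.of_forall (fun n => ?_))).trans ?_
  · have h1 : Tendsto (fun n : ℕ => θ ^ n) atTop (𝓝 0) :=
      tendsto_pow_atTop_nhds_zero_of_lt_one hθ.le hθ1
    have h2 := ENNReal.tendsto_ofReal h1
    rwa [ENNReal.ofReal_zero] at h2
  · rintro x ⟨u, hu, rfl⟩
    exact mem_iUnion.2 ⟨fun j => ⟨u j, hu j⟩, u, fun j => rfl, rfl⟩
  · refine liminf_le_liminf (Eventually.of_forall (fun n => ?_))
    calc ∑ w : ((j : Fin n) → T j),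
          Metric.ediam (valX hN hθ hNθ '' {u | ∀ j : Fin n, u j = (w j : Fin N)}) ^ d
        ≤ ∑ w : ((j : Fin n) → T j), ENNReal.ofReal ((θ ^ d) ^ n) := by
          refine Finset.sum_le_sum (fun w _ => ?_)
          refine (ENNReal.rpow_le_rpow (hdiam n w) hd.le).trans ?_
          rw [ENNReal.ofReal_rpow_of_nonneg (by positivity) hd.le]
          refine ENNReal.ofReal_le_ofReal (le_of_eq ?_)
          rw [← Real.rpow_natCast, ← Real.rpow_mul hθ.le, mul_comm, Real.rpow_mul hθ.le,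
            Real.rpow_natCast]
      _ = (Fintype.card ((j : Fin n) → T j) : ℝ≥0∞) * ENNReal.ofReal ((θ ^ d) ^ n) := by
          rw [Finset.sum_const, Finset.card_univ, nsmul_eq_mul]
      _ ≤ ENNReal.ofReal ((L : ℝ) ^ n) * ENNReal.ofReal ((θ ^ d) ^ n) := by
          gcongr
          have h1 : Fintype.card ((j : Fin n) → T j) ≤ L ^ n := by
            rw [Fintype.card_pi]
            calc ∏ j : Fin n, Fintype.card (T j) ≤ ∏ _j : Fin n, L := by
                  refine Finset.prod_le_prod' (fun j _ => ?_)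
                  rw [Fintype.card_coe]
                  exact hT j
              _ = L ^ n := by simp
          calc (Fintype.card ((j : Fin n) → T j) : ℝ≥0∞) ≤ ((L ^ n : ℕ) : ℝ≥0∞) := by
                exact_mod_cast h1
            _ = ENNReal.ofReal ((L : ℝ) ^ n) := by
                rw [← Nat.cast_pow, ENNReal.ofReal_natCast]
      _ = ENNReal.ofReal ((L * θ ^ d) ^ n) := by
          rw [← ENNReal.ofReal_mul (by positivity), mul_pow]

lemma measure_prod_le_one {d : ℝ} (hd : 0 < d) (T : ℕ → Finset (Fin N)) (L : ℕ)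
    (hT : ∀ j, (T j).card ≤ L) (hL : L * θ ^ d ≤ 1) :
    μH[d] (valX hN hθ hNθ '' {u | ∀ j, u j ∈ T j}) ≤ 1 := by
  have hθd : 0 < θ ^ d := Real.rpow_pos_of_pos hθ _
  refine (measure_prod_le hN hθ hNθ hd T L hT).trans ?_
  have h1 : liminf (fun n : ℕ => ENNReal.ofReal ((L * θ ^ d) ^ n)) atTop ≤
      liminf (fun _ : ℕ => (1 : ℝ≥0∞)) atTop := by
    refine liminf_le_liminf (Eventually.of_forall (fun n => ?_))
    rw [← ENNReal.ofReal_one]
    exact ENNReal.ofReal_le_ofReal (pow_le_one₀ (by positivity) hL)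
  simpa using h1

lemma measure_prod_zero {d : ℝ} (hd : 0 < d) (T : ℕ → Finset (Fin N)) (L : ℕ)
    (hT : ∀ j, (T j).card ≤ L) (hL : L * θ ^ d < 1) :
    μH[d] (valX hN hθ hNθ '' {u | ∀ j, u j ∈ T j}) = 0 := by
  have hθd : 0 < θ ^ d := Real.rpow_pos_of_pos hθ _
  refine le_antisymm ((measure_prod_le hN hθ hNθ hd T L hT).trans ?_) bot_le
  have h1 : Tendsto (fun n : ℕ => (L * θ ^ d) ^ n) atTop (𝓝 0) :=
    tendsto_pow_atTop_nhds_zero_of_lt_one (by positivity) hL
  have h2 := ENNReal.tendsto_ofReal h1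
  rw [ENNReal.ofReal_zero] at h2
  rw [h2.liminf_eq]

end

end Pool.Agent.R634.HLoc
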