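import Pool.Agent.R634.HLoc.Val

/-!
Digits of real numbers and Hölder inverse maps, for MP_09a4e8_an.
-/

open Filter Topology Set MeasureTheory
open scoped NNReal ENNReal

namespace Pool.Agent.R634.HLoc

/-- the `j`-th digit in base `K` of the fractional part of `t` -/
noncomputable def dig (K : ℕ) (hK : 0 < K) (t : ℝ) (j : ℕ) : Fin K :=
  ⟨(⌊(K : ℝ) ^ (j + 1) * t⌋ % (K : ℤ)).toNat, by
    have h1 : 0 ≤ ⌊(K : ℝ) ^ (j + 1) * t⌋ % (K : ℤ) :=
      Int.emod_nonneg _ (by exact_mod_cast hK.ne')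
    have h2 : ⌊(K : ℝ) ^ (j + 1) * t⌋ % (K : ℤ) < K :=
      Int.emod_lt_of_pos _ (by exact_mod_cast hK)
    omega⟩

variable {K : ℕ} (hK : 0 < K)

include hK in
lemma floor_pow_succ (t : ℝ) (k : ℕ) :
    ⌊(K : ℝ) ^ (k + 1) * t⌋ / (K : ℤ) = ⌊(K : ℝ) ^ k * t⌋ := by
  have hK' : (K : ℝ) ≠ 0 := by exact_mod_cast hK.ne'
  rw [← Int.floor_div_natCast]
  congr 1
  rw [pow_succ]
  field_simp

lemma floor_eq_of_dig {t t' : ℝ} (h0 : ⌊t⌋ = ⌊t'⌋) (k : ℕ)
    (h : ∀ j < k, dig K hK t j = dig K hK t' j) :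
    ⌊(K : ℝ) ^ k * t⌋ = ⌊(K : ℝ) ^ k * t'⌋ := by
  induction k with
  | zero => simpa using h0
  | succ k ih =>
    have ih' := ih (fun j hj => h j (by omega))
    have h1 := h k (by omega)
    simp only [dig, Fin.mk.injEq] at h1
    have h2 : 0 ≤ ⌊(K : ℝ) ^ (k + 1) * t⌋ % (K : ℤ) :=
      Int.emod_nonneg _ (by exact_mod_cast hK.ne')
    have h3 : 0 ≤ ⌊(K : ℝ) ^ (k + 1) * t'⌋ % (K : ℤ) :=
      Int.emod_nonneg _ (by exact_mod_cast hK.ne')
    have h4 : ⌊(K : ℝ) ^ (k + 1) * t⌋ % (K : ℤ) = ⌊(K : ℝ) ^ (k + 1) * t'⌋ % (K : ℤ) := by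
      omega
    rw [← floor_pow_succ hK t k, ← floor_pow_succ hK t' k] at ih'
    rw [← Int.mul_ediv_add_emod ⌊(K : ℝ) ^ (k + 1) * t⌋ (K : ℤ),
      ← Int.mul_ediv_add_emod ⌊(K : ℝ) ^ (k + 1) * t'⌋ (K : ℤ), ih', h4]

lemma abs_sub_le_of_dig {t t' : ℝ} (h0 : ⌊t⌋ = ⌊t'⌋) (k : ℕ)
    (h : ∀ j < k, dig K hK t j = dig K hK t' j) : |t - t'| ≤ ((K : ℝ) ^ k)⁻¹ := by
  have h1 := Int.abs_sub_lt_one_of_floor_eq_floor (floor_eq_of_dig hK h0 k h)
  have hK' : (0 : ℝ) < (K : ℝ) ^ k := by positivity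
  rw [← mul_sub, abs_mul, abs_of_pos hK'] at h1
  rw [← one_div, le_div_iff₀ hK']
  linarith

lemma exists_dig_ne (hK2 : 1 < K) {t t' : ℝ} (h0 : ⌊t⌋ = ⌊t'⌋) (hne : t ≠ t') :
    ∃ k, dig K hK t k ≠ dig K hK t' k := by
  by_contra hcon
  push Not at hcon
  have hpos : 0 < |t - t'| := abs_pos.2 (sub_ne_zero.2 hne)
  have hlim : Tendsto (fun k : ℕ => ((K : ℝ) ^ k)⁻¹) atTop (𝓝 0) :=
    tendsto_inv_atTop_zero.comp (tendsto_pow_atTop_atTop_of_one_lt (by exact_mod_cast hK2))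
  obtain ⟨k, hk⟩ := (hlim.eventually (gt_mem_nhds hpos)).exists
  have := abs_sub_le_of_dig hK h0 k (fun j _ => hcon j)
  linarith

/-- the unit interval as a metric space -/
abbrev X : Type := ↥(Icc (0 : ℝ) 1)

section

variable {N : ℕ} {θ : ℝ} (hN : 0 < N) (hθ : 0 < θ) (hNθ : N * θ < 1)

/-- `val` as a point of `X` -/
noncomputable def valX (u : ℕ → Fin N) : X := ⟨val N θ u, val_mem hN hθ hNθ u⟩

/-- the point coded by the digits of `t` through the letter maps `L j` -/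
noncomputable def cod (L : ℕ → Fin K → Fin N) (t : ℝ) : X :=
  valX hN hθ hNθ (fun j => L j (dig K hK t j))

/-- the Hölder inequality for the inverse of the coding map -/
lemma cod_holder (hK2 : 1 < K) {d : ℝ} (hd : 0 < d) (hθK : θ ^ d = (K : ℝ)⁻¹)
    (L : ℕ → Fin K → Fin N) (hL : ∀ j, Function.Injective (L j))
    {t t' : ℝ} (h0 : ⌊t⌋ = ⌊t'⌋) :
    |t - t'| ≤ (((1 - N * θ) / N) ^ d)⁻¹ *
      (dist (cod hK hN hθ hNθ L t) (cod hK hN hθ hNθ L t')) ^ d := by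
  classical
  have hN' : (0 : ℝ) < N := by exact_mod_cast hN
  have hc : 0 < (1 - N * θ) / N := div_pos (by linarith) hN'
  by_cases hne : t = t'
  · subst hne
    rw [sub_self, abs_zero]
    positivity
  · have hex := exists_dig_ne hK hK2 h0 hne
    set k := Nat.find hex with hk
    have h1 : ∀ j < k, dig K hK t j = dig K hK t' j :=
      fun j hj => not_not.1 (Nat.find_min hex hj)
    have h2 : dig K hK t k ≠ dig K hK t' k := Nat.find_spec hex
    have h3 := abs_sub_le_of_dig hK h0 k h1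
    have h4 := dist_lower hN hθ hNθ (fun j => L j (dig K hK t j))
      (fun j => L j (dig K hK t' j)) k (fun j hj => by simp only [h1 j hj])
      (fun h => h2 (hL k h))
    have h5 : dist (cod hK hN hθ hNθ L t) (cod hK hN hθ hNθ L t') =
        |val N θ (fun j => L j (dig K hK t j)) - val N θ (fun j => L j (dig K hK t' j))| := rfl
    rw [h5]
    have h6 : (θ ^ k * ((1 - N * θ) / N)) ^ d ≤
        |val N θ (fun j => L j (dig K hK t j)) - val N θ (fun j => L j (dig K hK t' j))| ^ d :=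
      Real.rpow_le_rpow (by positivity) h4 hd.le
    have h7 : (θ ^ k * ((1 - N * θ) / N)) ^ d = ((K : ℝ) ^ k)⁻¹ * ((1 - N * θ) / N) ^ d := by
      rw [Real.mul_rpow (by positivity) hc.le]
      congr 1
      rw [← Real.rpow_natCast, ← Real.rpow_mul hθ.le, mul_comm, Real.rpow_mul hθ.le, hθK,
        Real.rpow_natCast, inv_pow]
    rw [h7] at h6
    have hcd : 0 < ((1 - N * θ) / N) ^ d := Real.rpow_pos_of_pos hc _
    calc |t - t'| ≤ ((K : ℝ) ^ k)⁻¹ := h3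
      _ = (((1 - N * θ) / N) ^ d)⁻¹ * (((K : ℝ) ^ k)⁻¹ * ((1 - N * θ) / N) ^ d) := by
        field_simp
      _ ≤ _ := mul_le_mul_of_nonneg_left h6 (by positivity)

/-- preimages of `H^d`-null sets under coding maps are Lebesgue null -/
lemma cod_null (hK2 : 1 < K) {d : ℝ} (hd : 0 < d) (hθK : θ ^ d = (K : ℝ)⁻¹)
    (L : ℕ → Fin K → Fin N) (hL : ∀ j, Function.Injective (L j))
    {Z : Set X} (hZ : μH[d] Z = 0) :
    volume {t : ℝ | cod hK hN hθ hNθ L t ∈ Z} = 0 := by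
  classical
  have hN' : (0 : ℝ) < N := by exact_mod_cast hN
  have hc : 0 < (1 - N * θ) / N := div_pos (by linarith) hN'
  have hcd : 0 < ((1 - N * θ) / N) ^ d := Real.rpow_pos_of_pos hc _
  have hsub : {t : ℝ | cod hK hN hθ hNθ L t ∈ Z} ⊆
      ⋃ m : ℤ, {t : ℝ | ⌊t⌋ = m ∧ cod hK hN hθ hNθ L t ∈ Z} := by
    intro t ht
    exact mem_iUnion.2 ⟨⌊t⌋, rfl, ht⟩
  refine measure_mono_null hsub (measure_iUnion_null (fun m => ?_))
  set A : Set ℝ := {t : ℝ | ⌊t⌋ = m ∧ cod hK hN hθ hNθ L t ∈ Z} with hA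
  have hinj : InjOn (cod hK hN hθ hNθ L) A := by
    intro t ht t' ht' heq
    have h1 := cod_holder hK hN hθ hNθ hK2 hd hθK L hL (ht.1.trans ht'.1.symm)
    rw [heq, dist_self, Real.zero_rpow hd.ne', mul_zero] at h1
    have := abs_nonneg (t - t')
    have h2 : |t - t'| = 0 := le_antisymm h1 this
    exact sub_eq_zero.1 (abs_eq_zero.1 h2)
  let g : X → ℝ := Function.invFunOn (cod hK hN hθ hNθ L) A
  have hg : ∀ t ∈ A, g (cod hK hN hθ hNθ L t) = t := fun t ht =>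
    hinj.leftInvOn_invFunOn ht
  let Cn : ℝ≥0 := ⟨(((1 - N * θ) / N) ^ d)⁻¹, by positivity⟩
  let dn : ℝ≥0 := ⟨d, hd.le⟩
  have hH : HolderOnWith Cn dn g (cod hK hN hθ hNθ L '' A) := by
    rintro x ⟨t, ht, rfl⟩ y ⟨t', ht', rfl⟩
    rw [hg t ht, hg t' ht']
    have h1 := cod_holder hK hN hθ hNθ hK2 hd hθK L hL (ht.1.trans ht'.1.symm)
    rw [edist_dist, edist_dist, Real.dist_eq]
    have h2 : (ENNReal.ofReal (dist (cod hK hN hθ hNθ L t) (cod hK hN hθ hNθ L t'))) ^ (dn : ℝ)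
        = ENNReal.ofReal ((dist (cod hK hN hθ hNθ L t) (cod hK hN hθ hNθ L t')) ^ d) :=
      ENNReal.ofReal_rpow_of_nonneg dist_nonneg hd.le
    rw [h2]
    have h3 : (Cn : ℝ≥0∞) = ENNReal.ofReal (((1 - N * θ) / N) ^ d)⁻¹ := by
      rw [ENNReal.ofReal, Real.toNNReal_of_nonneg (by positivity)]
      rfl
    rw [h3, ← ENNReal.ofReal_mul (by positivity)]
    exact ENNReal.ofReal_le_ofReal h1
  have hAeq : g '' (cod hK hN hθ hNθ L '' A) = A := by
    ext t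
    constructor
    · rintro ⟨x, ⟨t', ht', rfl⟩, rfl⟩
      rw [hg t' ht']
      exact ht'
    · intro ht
      exact ⟨_, ⟨t, ht, rfl⟩, hg t ht⟩
  have h1 := hH.hausdorffMeasure_image_le (d := 1) (by exact_mod_cast hd) zero_le_one
  rw [hAeq, hausdorffMeasure_real] at h1
  have h2 : μH[(dn : ℝ) * 1] (cod hK hN hθ hNθ L '' A) = 0 := by
    rw [mul_one]
    refine measure_mono_null ?_ hZ
    rintro x ⟨t, ht, rfl⟩
    exact ht.2
  rw [h2, mul_zero] at h1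
  exact le_antisymm h1 bot_le

end

end Pool.Agent.R634.HLoc
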