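import Pool.Agent.R634.HLoc.Cover

/-!
Main argument for MP_09a4e8_an.
-/

open Filter Topology Set MeasureTheory Cardinal
open scoped NNReal ENNReal

namespace Pool.Agent.R634.HLoc

/-- Carathéodory measurability for the Hausdorff (outer) measure `H^d` on `[0,1]` -/
def CaraMeasurable (d : ℝ) (S : Set X) : Prop :=
  (μH[d] : Measure X).toOuterMeasure.IsCaratheodory S

/-- locally null sets: measurable sets meeting every measurable set of finite measure in a null
set -/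
def LocNull (d : ℝ) (Z : Set X) : Prop :=
  CaraMeasurable d Z ∧
    ∀ F : Set X, CaraMeasurable d F → μH[d] F < ⊤ → μH[d] (Z ∩ F) = 0

/-- `([0,1], A_{H^d}, H^d)` is semilocalizable -/
def Semilocalizable (d : ℝ) : Prop :=
  ∀ 𝓕 : Set (Set X), (∀ F ∈ 𝓕, CaraMeasurable d F) →
    ∃ V : Set X, CaraMeasurable d V ∧ (∀ F ∈ 𝓕, LocNull d (F \ V)) ∧
      ∀ U : Set X, CaraMeasurable d U → (∀ F ∈ 𝓕, LocNull d (F \ U)) → LocNull d (V \ U)

/-- `non(N)`: the least cardinality of a set of reals which is not Lebesgue null -/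
noncomputable def nonN : Cardinal := sInf {c | ∃ Y : Set ℝ, #Y = c ∧ volume Y ≠ 0}

/-- `cov(N)`: the least cardinality of a family of Lebesgue null sets covering the line -/
noncomputable def covN : Cardinal :=
  sInf {c | ∃ 𝒞 : Set (Set ℝ), #𝒞 = c ∧ (∀ C ∈ 𝒞, volume C = 0) ∧ ⋃₀ 𝒞 = Set.univ}

lemma caraMeasurable_of_measurableSet (d : ℝ) {S : Set X} (hS : MeasurableSet S) :
    CaraMeasurable d S :=
  le_toOuterMeasure_caratheodory (μH[d] : Measure X) S hS

/-- letters -/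
def letter (M : ℕ) (hM : 0 < M) (x y : Fin (2 * M)) : Fin (4 * M) :=
  ⟨(x : ℕ) % 2 + 2 * ((y : ℕ) % 2) + 4 * (((x : ℕ) / 2 + (y : ℕ) / 2) % M), by
    have h1 := Nat.mod_lt ((x : ℕ) / 2 + (y : ℕ) / 2) hM
    omega⟩

lemma letter_mod (M : ℕ) (hM : 0 < M) (x y : Fin (2 * M)) :
    (letter M hM x y : ℕ) % 4 = (x : ℕ) % 2 + 2 * ((y : ℕ) % 2) := by
  simp only [letter]
  omega

lemma add_mod_cancel_left {M a b c : ℕ} (hb : b < M) (hc : c < M)
    (h : (a + b) % M = (a + c) % M) : b = c := by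
  have h1 : (a + b) ≡ (a + c) [MOD M] := h
  have h2 : b ≡ c [MOD M] := Nat.ModEq.add_left_cancel' a h1
  exact Nat.ModEq.eq_of_lt_of_lt h2 hb hc

lemma letter_inj_right (M : ℕ) (hM : 0 < M) (x : Fin (2 * M)) :
    Function.Injective (fun y => letter M hM x y) := by
  intro y y' h
  have h1 := congrArg Fin.val h
  simp only [letter] at h1
  have h2 : ((x : ℕ) / 2 + (y : ℕ) / 2) % M = ((x : ℕ) / 2 + (y' : ℕ) / 2) % M := by omega
  have h3 : (y : ℕ) / 2 = (y' : ℕ) / 2 :=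
    add_mod_cancel_left (by omega) (by omega) h2
  apply Fin.ext
  omega

lemma letter_inj_left (M : ℕ) (hM : 0 < M) (y : Fin (2 * M)) :
    Function.Injective (fun x => letter M hM x y) := by
  intro x x' h
  have h1 := congrArg Fin.val h
  simp only [letter] at h1
  have h2 : ((y : ℕ) / 2 + (x : ℕ) / 2) % M = ((y : ℕ) / 2 + (x' : ℕ) / 2) % M := by
    rw [add_comm ((y : ℕ) / 2), add_comm ((y : ℕ) / 2)]
    omega
  have h3 : (x : ℕ) / 2 = (x' : ℕ) / 2 :=
    add_mod_cancel_left (by omega) (by omega) h2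
  apply Fin.ext
  omega

section

variable {M : ℕ} (hM : 0 < M) {θ : ℝ} (hN : 0 < 4 * M) (hθ : 0 < θ)
  (hNθ : ((4 * M : ℕ) : ℝ) * θ < 1) (hK : 0 < 2 * M)

/-- the fibre `F s` -/
def FF (s : ℝ) : Set X :=
  range (fun y : ℕ → Fin (2 * M) => valX hN hθ hNθ (fun j => letter M hM (dig (2 * M) hK s j) (y j)))

/-- the fibre `G t` -/
def GG (t : ℝ) : Set X :=
  range (fun x : ℕ → Fin (2 * M) => valX hN hθ hNθ (fun j => letter M hM (x j) (dig (2 * M) hK t j)))

/-- the point `p(s,t)` -/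
noncomputable def pp (s t : ℝ) : X :=
  valX hN hθ hNθ (fun j => letter M hM (dig (2 * M) hK s j) (dig (2 * M) hK t j))

lemma pp_mem_FF (s t : ℝ) : pp hM hN hθ hNθ hK s t ∈ FF hM hN hθ hNθ hK s :=
  ⟨fun j => dig (2 * M) hK t j, rfl⟩

lemma pp_mem_GG (s t : ℝ) : pp hM hN hθ hNθ hK s t ∈ GG hM hN hθ hNθ hK t :=
  ⟨fun j => dig (2 * M) hK s j, rfl⟩

lemma measurable_FF (s : ℝ) : MeasurableSet (FF hM hN hθ hNθ hK s) := by
  refine (isCompact_range ?_).isClosed.measurableSet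
  refine (valX_continuous hN hθ hNθ).comp (continuous_pi (fun j => ?_))
  exact (continuous_of_discreteTopology (f := letter M hM (dig (2 * M) hK s j))).comp
    (continuous_apply j)

lemma measurable_GG (t : ℝ) : MeasurableSet (GG hM hN hθ hNθ hK t) := by
  refine (isCompact_range ?_).isClosed.measurableSet
  refine (valX_continuous hN hθ hNθ).comp (continuous_pi (fun j => ?_))
  exact (continuous_of_discreteTopology
    (f := fun x => letter M hM x (dig (2 * M) hK t j))).comp (continuous_apply j)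

lemma measure_FF {d : ℝ} (hd : 0 < d) (hθK : θ ^ d = ((2 * M : ℕ) : ℝ)⁻¹) (s : ℝ) :
    μH[d] (FF hM hN hθ hNθ hK s) < ⊤ := by
  classical
  have hK' : (0 : ℝ) < ((2 * M : ℕ) : ℝ) := by exact_mod_cast hK
  refine lt_of_le_of_lt ?_ ENNReal.one_lt_top
  refine (measure_mono ?_).trans (measure_prod_le_one hN hθ hNθ hd
    (fun j => Finset.univ.image (fun y => letter M hM (dig (2 * M) hK s j) y)) (2 * M)
    (fun j => ?_) ?_)
  · rintro x ⟨y, rfl⟩
    exact ⟨_, fun j => Finset.mem_image_of_mem _ (Finset.mem_univ _), rfl⟩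
  · refine Finset.card_image_le.trans ?_
    simp
  · rw [hθK, mul_inv_cancel₀ hK'.ne']

lemma measure_GG {d : ℝ} (hd : 0 < d) (hθK : θ ^ d = ((2 * M : ℕ) : ℝ)⁻¹) (t : ℝ) :
    μH[d] (GG hM hN hθ hNθ hK t) < ⊤ := by
  classical
  have hK' : (0 : ℝ) < ((2 * M : ℕ) : ℝ) := by exact_mod_cast hK
  refine lt_of_le_of_lt ?_ ENNReal.one_lt_top
  refine (measure_mono ?_).trans (measure_prod_le_one hN hθ hNθ hd
    (fun j => Finset.univ.image (fun x => letter M hM x (dig (2 * M) hK t j))) (2 * M)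
    (fun j => ?_) ?_)
  · rintro x ⟨y, rfl⟩
    exact ⟨_, fun j => Finset.mem_image_of_mem _ (Finset.mem_univ _), rfl⟩
  · refine Finset.card_image_le.trans ?_
    simp
  · rw [hθK, mul_inv_cancel₀ hK'.ne']

lemma measure_FF_inter_GG {d : ℝ} (hd : 0 < d) (hθK : θ ^ d = ((2 * M : ℕ) : ℝ)⁻¹) (s t : ℝ) :
    μH[d] (FF hM hN hθ hNθ hK s ∩ GG hM hN hθ hNθ hK t) = 0 := by
  classical
  have hM' : (0 : ℝ) < (M : ℝ) := by exact_mod_cast hM
  refine measure_mono_null ?_ (measure_prod_zero hN hθ hNθ hd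
    (fun j => Finset.univ.filter (fun a : Fin (4 * M) => (a : ℕ) % 4 =
      (dig (2 * M) hK s j : ℕ) % 2 + 2 * ((dig (2 * M) hK t j : ℕ) % 2))) M
    (fun j => ?_) ?_)
  · rintro z ⟨⟨y, hy⟩, ⟨x, hx⟩⟩
    have h1 := valX_injective hN hθ hNθ (hy.trans hx.symm)
    refine ⟨_, fun j => ?_, hy⟩
    have h2 : letter M hM (dig (2 * M) hK s j) (y j) = letter M hM (x j) (dig (2 * M) hK t j) :=
      congrFun h1 j
    simp only [Finset.mem_filter, Finset.mem_univ, true_and]
    have h3 := letter_mod M hM (dig (2 * M) hK s j) (y j)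
    have h4 := letter_mod M hM (x j) (dig (2 * M) hK t j)
    rw [← h2] at h4
    omega
  · set c := (dig (2 * M) hK s j : ℕ) % 2 + 2 * ((dig (2 * M) hK t j : ℕ) % 2) with hc
    have hinj : Set.InjOn (fun a : Fin (4 * M) => (a : ℕ) / 4)
        (Finset.univ.filter (fun a : Fin (4 * M) => (a : ℕ) % 4 = c) : Finset (Fin (4 * M))) := by
      intro a ha b hb hab
      simp only [Finset.coe_filter, Finset.mem_univ, true_and, Set.mem_ofPred_eq] at ha hb
      simp only at hab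
      apply Fin.ext
      omega
    have h1 := Finset.card_le_card_of_injOn (t := Finset.range M)
      (fun a : Fin (4 * M) => (a : ℕ) / 4) (fun a ha => by
        simp only [Finset.coe_range, mem_Iio]
        omega) hinj
    simpa using h1
  · rw [hθK]
    have h5 : (((2 * M : ℕ) : ℝ))⁻¹ = ((2 : ℝ) * M)⁻¹ := by push_cast; rfl
    rw [h5]
    have h6 : (M : ℝ) * ((2 : ℝ) * M)⁻¹ = 1 / 2 := by field_simp
    rw [h6]
    norm_num

include hM hN hθ hNθ hK in
/-- the core contradiction -/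
lemma not_semi_aux {d : ℝ} (hd : 0 < d) (hθK : θ ^ d = ((2 * M : ℕ) : ℝ)⁻¹)
    (h : nonN < covN) : ¬ Semilocalizable d := by
  classical
  intro hsemi
  have hK2 : 1 < 2 * M := by omega
  obtain ⟨V, hV, hV1, hV2⟩ := hsemi (range (FF hM hN hθ hNθ hK)) (by
    rintro F ⟨s, rfl⟩
    exact caraMeasurable_of_measurableSet d (measurable_FF hM hN hθ hNθ hK s))
  have hFV : ∀ s, μH[d] (FF hM hN hθ hNθ hK s \ V) = 0 := by
    intro s
    have h1 := (hV1 _ (mem_range_self s)).2 _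
      (caraMeasurable_of_measurableSet d (measurable_FF hM hN hθ hNθ hK s))
      (measure_FF hM hN hθ hNθ hK hd hθK s)
    refine measure_mono_null ?_ h1
    exact fun x hx => ⟨hx, hx.1⟩
  have hGV : ∀ t, μH[d] (V ∩ GG hM hN hθ hNθ hK t) = 0 := by
    intro t
    have hG := measurable_GG hM hN hθ hNθ hK t
    have h1 := hV2 (GG hM hN hθ hNθ hK t)ᶜ
      (caraMeasurable_of_measurableSet d hG.compl) (by
        rintro F ⟨s, rfl⟩
        have hF := measurable_FF hM hN hθ hNθ hK s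
        refine ⟨caraMeasurable_of_measurableSet d (hF.diff hG.compl), fun F' _ _ => ?_⟩
        refine measure_mono_null ?_ (measure_FF_inter_GG hM hN hθ hNθ hK hd hθK s t)
        intro x hx
        refine ⟨hx.1.1, ?_⟩
        by_contra hxG
        exact hx.1.2 hxG)
    have h2 := h1.2 _ (caraMeasurable_of_measurableSet d hG)
      (measure_GG hM hN hθ hNθ hK hd hθK t)
    refine measure_mono_null ?_ h2
    intro x hx
    exact ⟨⟨hx.1, fun hc => hc hx.2⟩, hx.2⟩
  -- null slices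
  have hN1 : ∀ t, volume {s : ℝ | pp hM hN hθ hNθ hK s t ∈ V} = 0 := by
    intro t
    have h1 := cod_null hK hN hθ hNθ hK2 hd hθK
      (fun j x => letter M hM x (dig (2 * M) hK t j)) (fun j => letter_inj_left M hM _) (hGV t)
    refine measure_mono_null ?_ h1
    intro s hs
    exact ⟨hs, pp_mem_GG hM hN hθ hNθ hK s t⟩
  have hN2 : ∀ s, volume {t : ℝ | pp hM hN hθ hNθ hK s t ∉ V} = 0 := by
    intro s
    have h1 := cod_null hK hN hθ hNθ hK2 hd hθK
      (fun j y => letter M hM (dig (2 * M) hK s j) y) (fun j => letter_inj_right M hM _) (hFV s)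
    refine measure_mono_null ?_ h1
    intro t ht
    exact ⟨pp_mem_FF hM hN hθ hNθ hK s t, ht⟩
  -- the non-null set of small cardinality
  have hne : {c : Cardinal | ∃ Y : Set ℝ, #Y = c ∧ volume Y ≠ 0}.Nonempty :=
    ⟨_, Set.univ, rfl, by simp⟩
  obtain ⟨Y, hYc, hY⟩ := csInf_mem hne
  set 𝒞 : Set (Set ℝ) := (fun t => {s : ℝ | pp hM hN hθ hNθ hK s t ∈ V}) '' Y with h𝒞
  have h𝒞c : #𝒞 < covN := lt_of_le_of_lt (mk_image_le.trans hYc.le) h
  have hcov : ⋃₀ 𝒞 ≠ Set.univ := by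
    intro hcon
    have h1 : covN ≤ #𝒞 := csInf_le' ⟨𝒞, rfl, by
      rintro C ⟨t, _, rfl⟩
      exact hN1 t, hcon⟩
    exact absurd h𝒞c (not_lt.2 h1)
  obtain ⟨s, hs⟩ := (ne_univ_iff_exists_notMem _).1 hcov
  apply hY
  refine measure_mono_null ?_ (hN2 s)
  intro t ht hmem
  exact hs ⟨_, ⟨t, ht, rfl⟩, hmem⟩

end

/-- choice of parameters -/
lemma exists_params {d : ℝ} (hd : 0 < d) (hd1 : d < 1) :
    ∃ M : ℕ, 0 < M ∧ ∃ θ : ℝ, 0 < θ ∧ ((4 * M : ℕ) : ℝ) * θ < 1 ∧
      θ ^ d = ((2 * M : ℕ) : ℝ)⁻¹ := by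
  have he : 0 < 1 / d - 1 := by
    rw [sub_pos, one_lt_div hd]
    exact hd1
  have hlim : Tendsto (fun x : ℝ => x ^ (1 / d - 1)) atTop atTop := tendsto_rpow_atTop he
  have hlim2 : Tendsto (fun M : ℕ => ((2 * M : ℕ) : ℝ)) atTop atTop := by
    refine tendsto_natCast_atTop_atTop.comp ?_
    exact tendsto_id.const_mul_atTop' (by norm_num : 0 < 2)
  obtain ⟨M, hM1, hM2⟩ := (((hlim.comp hlim2).eventually_gt_atTop 2).and
    (eventually_gt_atTop 0)).exists
  have hK : (0 : ℝ) < ((2 * M : ℕ) : ℝ) := by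
    have : 0 < 2 * M := by omega
    exact_mod_cast this
  refine ⟨M, hM2, ((2 * M : ℕ) : ℝ) ^ (-(1 / d)), Real.rpow_pos_of_pos hK _, ?_, ?_⟩
  · simp only [Function.comp] at hM1
    have h1 : ((4 * M : ℕ) : ℝ) = 2 * ((2 * M : ℕ) : ℝ) := by push_cast; ring
    rw [h1]
    set k : ℝ := ((2 * M : ℕ) : ℝ) with hk
    have h2 : k * k ^ (-(1 / d)) = (k ^ (1 / d - 1))⁻¹ := by
      rw [← Real.rpow_neg hK.le]
      nth_rewrite 1 [← Real.rpow_one k]
      rw [← Real.rpow_add hK]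
      congr 1
      ring
    rw [mul_assoc, h2]
    rw [← div_eq_mul_inv, div_lt_one (by linarith)]
    exact hM1
  · rw [← Real.rpow_mul hK.le]
    have : -(1 / d) * d = -1 := by field_simp
    rw [this, Real.rpow_neg_one]

theorem main (h : nonN < covN) (d : ℝ) (hd : 0 < d) (hd1 : d < 1) : ¬ Semilocalizable d := by
  obtain ⟨M, hM, θ, hθ, hNθ, hθK⟩ := exists_params hd hd1
  exact not_semi_aux hM (by omega) hθ hNθ (by omega) hd hθK h

end Pool.Agent.R634.HLoc
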