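import Mathlib

/-!
Self-similar Cantor sets coded by sequences of letters, for MP_09a4e8_an.
-/

open Filter Topology Set MeasureTheory

namespace Pool.Agent.R634.HLoc

/-- the point of `[0,1]` coded by the sequence `u` of letters -/
noncomputable def val (N : ℕ) (θ : ℝ) (u : ℕ → Fin N) : ℝ :=
  ((1 - θ) / N) * ∑' j, ((u j : ℕ) : ℝ) * θ ^ j

section

variable {N : ℕ} {θ : ℝ}

lemma theta_lt_one (hN : 0 < N) (hθ : 0 < θ) (hNθ : N * θ < 1) : θ < 1 := by
  have h1 : (1 : ℝ) ≤ N := by exact_mod_cast hN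
  nlinarith

lemma letter_bound (a : Fin N) : ((a : ℕ) : ℝ) ≤ N - 1 := by
  have h1 : (a : ℕ) + 1 ≤ N := a.2
  have h2 : (((a : ℕ) + 1 : ℕ) : ℝ) ≤ N := by exact_mod_cast h1
  push_cast at h2
  linarith

lemma summ (hθ : 0 < θ) (hθ1 : θ < 1) (u : ℕ → Fin N) :
    Summable (fun j => ((u j : ℕ) : ℝ) * θ ^ j) := by
  refine Summable.of_nonneg_of_le (fun j => by positivity) (fun j => ?_)
    ((summable_geometric_of_lt_one hθ.le hθ1).mul_left ((N : ℝ) - 1))
  exact mul_le_mul_of_nonneg_right (letter_bound _) (by positivity)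

lemma tail_bound (hθ : 0 < θ) (hθ1 : θ < 1) (u v : ℕ → Fin N) :
    |∑' j, (((u j : ℕ) : ℝ) - ((v j : ℕ) : ℝ)) * θ ^ j| ≤ ((N : ℝ) - 1) / (1 - θ) := by
  have hg := summable_geometric_of_lt_one hθ.le hθ1
  have hb : ∀ j, |(((u j : ℕ) : ℝ) - ((v j : ℕ) : ℝ)) * θ ^ j| ≤ ((N : ℝ) - 1) * θ ^ j := by
    intro j
    rw [abs_mul, abs_of_nonneg (by positivity : (0 : ℝ) ≤ θ ^ j)]
    refine mul_le_mul_of_nonneg_right ?_ (by positivity)
    rw [abs_le]
    have h1 := letter_bound (u j)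
    have h2 := letter_bound (v j)
    have h3 : (0 : ℝ) ≤ ((u j : ℕ) : ℝ) := by positivity
    have h4 : (0 : ℝ) ≤ ((v j : ℕ) : ℝ) := by positivity
    constructor <;> linarith
  have hs : Summable (fun j => |(((u j : ℕ) : ℝ) - ((v j : ℕ) : ℝ)) * θ ^ j|) :=
    Summable.of_nonneg_of_le (fun _ => abs_nonneg _) hb (hg.mul_left _)
  have h1 : |∑' j, (((u j : ℕ) : ℝ) - ((v j : ℕ) : ℝ)) * θ ^ j| ≤
      ∑' j, |(((u j : ℕ) : ℝ) - ((v j : ℕ) : ℝ)) * θ ^ j| := by
    have := norm_tsum_le_tsum_norm (f := fun j =>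
      (((u j : ℕ) : ℝ) - ((v j : ℕ) : ℝ)) * θ ^ j) (by simpa [Real.norm_eq_abs] using hs)
    simpa [Real.norm_eq_abs] using this
  refine h1.trans ((hs.tsum_le_tsum hb (hg.mul_left _)).trans ?_)
  rw [tsum_mul_left, tsum_geometric_of_lt_one hθ.le hθ1]
  rfl

lemma diff_eq (hθ : 0 < θ) (hθ1 : θ < 1) (u v : ℕ → Fin N) (n : ℕ) (h : ∀ j < n, u j = v j) :
    (∑' j, ((u j : ℕ) : ℝ) * θ ^ j) - ∑' j, ((v j : ℕ) : ℝ) * θ ^ j =
      θ ^ n * ∑' j, (((u (j + n) : ℕ) : ℝ) - ((v (j + n) : ℕ) : ℝ)) * θ ^ j := by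
  have hu := summ hθ hθ1 u
  have hv := summ hθ hθ1 v
  rw [← hu.tsum_sub hv]
  have hs := hu.sub hv
  rw [← hs.sum_add_tsum_nat_add n]
  have h0 : ∑ i ∈ Finset.range n, (((u i : ℕ) : ℝ) * θ ^ i - ((v i : ℕ) : ℝ) * θ ^ i) = 0 := by
    refine Finset.sum_eq_zero (fun i hi => ?_)
    rw [h i (Finset.mem_range.1 hi), sub_self]
  rw [h0, zero_add, ← tsum_mul_left]
  refine tsum_congr (fun j => ?_)
  rw [pow_add]
  ring

lemma dist_upper (hN : 0 < N) (hθ : 0 < θ) (hNθ : N * θ < 1) (u v : ℕ → Fin N) (n : ℕ)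
    (h : ∀ j < n, u j = v j) : |val N θ u - val N θ v| ≤ θ ^ n := by
  have hθ1 := theta_lt_one hN hθ hNθ
  have hN' : (0 : ℝ) < N := by exact_mod_cast hN
  unfold val
  rw [← mul_sub, diff_eq hθ hθ1 u v n h, abs_mul, abs_mul,
    abs_of_nonneg (show 0 ≤ (1 - θ) / N from div_nonneg (by linarith) hN'.le),
    abs_of_nonneg (show 0 ≤ θ ^ n by positivity)]
  have h1 := tail_bound hθ hθ1 (fun j => u (j + n)) (fun j => v (j + n))
  have h2 : (1 - θ) / N * (θ ^ n * |∑' j, (((u (j + n) : ℕ) : ℝ) - ((v (j + n) : ℕ) : ℝ)) *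
      θ ^ j|) ≤ (1 - θ) / N * (θ ^ n * (((N : ℝ) - 1) / (1 - θ))) := by
    refine mul_le_mul_of_nonneg_left ?_ (div_nonneg (by linarith) hN'.le)
    exact mul_le_mul_of_nonneg_left h1 (by positivity)
  refine h2.trans ?_
  have h3 : (1 - θ) / N * (θ ^ n * (((N : ℝ) - 1) / (1 - θ))) = θ ^ n * (((N : ℝ) - 1) / N) := by
    have : (1 - θ) ≠ 0 := by linarith
    field_simp
  rw [h3]
  have h4 : ((N : ℝ) - 1) / N ≤ 1 := by
    rw [div_le_one hN']
    linarith
  calc θ ^ n * (((N : ℝ) - 1) / N) ≤ θ ^ n * 1 :=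
        mul_le_mul_of_nonneg_left h4 (by positivity)
    _ = θ ^ n := mul_one _

lemma dist_lower (hN : 0 < N) (hθ : 0 < θ) (hNθ : N * θ < 1) (u v : ℕ → Fin N) (n : ℕ)
    (h : ∀ j < n, u j = v j) (hn : u n ≠ v n) :
    θ ^ n * ((1 - N * θ) / N) ≤ |val N θ u - val N θ v| := by
  have hθ1 := theta_lt_one hN hθ hNθ
  have hN' : (0 : ℝ) < N := by exact_mod_cast hN
  unfold val
  rw [← mul_sub, diff_eq hθ hθ1 u v n h, abs_mul, abs_mul,
    abs_of_nonneg (show 0 ≤ (1 - θ) / N from div_nonneg (by linarith) hN'.le),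
    abs_of_nonneg (show 0 ≤ θ ^ n by positivity)]
  set W : ℕ → ℝ := fun j => (((u (j + n) : ℕ) : ℝ) - ((v (j + n) : ℕ) : ℝ)) * θ ^ j with hW
  have hWs : Summable W := by
    have h1 := summ hθ hθ1 (fun j => u (j + n))
    have h2 := summ hθ hθ1 (fun j => v (j + n))
    refine (h1.sub h2).congr (fun j => ?_)
    simp only [hW]
    ring
  have hsplit : ∑' j, W j = W 0 + ∑' j, W (j + 1) := hWs.tsum_eq_zero_add
  have h0 : 1 ≤ |W 0| := by
    simp only [hW, zero_add, pow_zero, mul_one]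
    have hne : ((u n : ℕ) : ℤ) - ((v n : ℕ) : ℤ) ≠ 0 := by
      intro h0
      apply hn
      apply Fin.ext
      omega
    have h1 : (1 : ℤ) ≤ |((u n : ℕ) : ℤ) - ((v n : ℕ) : ℤ)| := Int.one_le_abs hne
    have h2 : ((1 : ℤ) : ℝ) ≤ ((|((u n : ℕ) : ℤ) - ((v n : ℕ) : ℤ)| : ℤ) : ℝ) := by
      exact_mod_cast h1
    simpa using h2
  have htail : |∑' j, W (j + 1)| ≤ θ * (((N : ℝ) - 1) / (1 - θ)) := by
    have h1 : ∑' j, W (j + 1) = θ * ∑' j, (((u (j + (n + 1)) : ℕ) : ℝ) -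
        ((v (j + (n + 1)) : ℕ) : ℝ)) * θ ^ j := by
      rw [← tsum_mul_left]
      refine tsum_congr (fun j => ?_)
      simp only [hW]
      rw [show j + 1 + n = j + (n + 1) by omega, pow_succ]
      ring
    rw [h1, abs_mul, abs_of_pos hθ]
    exact mul_le_mul_of_nonneg_left (tail_bound hθ hθ1 (fun j => u (j + (n + 1)))
      (fun j => v (j + (n + 1)))) hθ.le
  have h5 : 1 - θ * (((N : ℝ) - 1) / (1 - θ)) ≤ |∑' j, W j| := by
    rw [hsplit]
    have h6 : |W 0| ≤ |W 0 + ∑' j, W (j + 1)| + |∑' j, W (j + 1)| := by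
      have := abs_add_le (W 0 + ∑' j, W (j + 1)) (-∑' j, W (j + 1))
      rw [abs_neg, add_neg_cancel_right] at this
      exact this
    linarith
  have h7 : θ ^ n * ((1 - N * θ) / N) =
      (1 - θ) / N * (θ ^ n * (1 - θ * (((N : ℝ) - 1) / (1 - θ)))) := by
    have : (1 - θ) ≠ 0 := by linarith
    field_simp
    ring
  rw [h7]
  refine mul_le_mul_of_nonneg_left ?_ (div_nonneg (by linarith) hN'.le)
  exact mul_le_mul_of_nonneg_left h5 (by positivity)

lemma val_injective (hN : 0 < N) (hθ : 0 < θ) (hNθ : N * θ < 1) :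
    Function.Injective (val N θ) := by
  classical
  intro u v huv
  by_contra hne
  have hex : ∃ n, u n ≠ v n := Function.ne_iff.1 hne
  have h1 := dist_lower hN hθ hNθ u v (Nat.find hex)
    (fun j hj => not_not.1 (Nat.find_min hex hj)) (Nat.find_spec hex)
  rw [huv, sub_self, abs_zero] at h1
  have hN' : (0 : ℝ) < N := by exact_mod_cast hN
  have h2 : 0 < θ ^ (Nat.find hex) * ((1 - N * θ) / N) :=
    mul_pos (by positivity) (div_pos (by linarith) hN')
  linarith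

lemma val_mem (hN : 0 < N) (hθ : 0 < θ) (hNθ : N * θ < 1) (u : ℕ → Fin N) :
    val N θ u ∈ Icc (0 : ℝ) 1 := by
  have hθ1 := theta_lt_one hN hθ hNθ
  have hN' : (0 : ℝ) < N := by exact_mod_cast hN
  have h0 : 0 ≤ val N θ u := by
    unfold val
    exact mul_nonneg (div_nonneg (by linarith) hN'.le) (tsum_nonneg (fun j => by positivity))
  refine ⟨h0, ?_⟩
  have h1 := dist_upper hN hθ hNθ u (fun _ => ⟨0, hN⟩) 0 (by simp)
  have h2 : val N θ (fun _ => (⟨0, hN⟩ : Fin N)) = 0 := by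
    unfold val
    simp
  rw [h2, sub_zero, pow_zero, abs_of_nonneg h0] at h1
  exact h1

lemma val_continuous (hN : 0 < N) (hθ : 0 < θ) (hNθ : N * θ < 1) : Continuous (val N θ) := by
  have hθ1 := theta_lt_one hN hθ hNθ
  unfold val
  refine continuous_const.mul ?_
  refine continuous_tsum (u := fun j : ℕ => ((N : ℝ) - 1) * θ ^ j) (fun j => ?_)
    ((summable_geometric_of_lt_one hθ.le hθ1).mul_left _) (fun j u => ?_)
  · have h1 : Continuous (fun a : Fin N => ((a : ℕ) : ℝ)) := continuous_of_discreteTopology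
    exact (h1.comp (continuous_apply j)).mul continuous_const
  · rw [Real.norm_eq_abs, abs_of_nonneg (by positivity)]
    exact mul_le_mul_of_nonneg_right (letter_bound _) (by positivity)

end

end Pool.Agent.R634.HLoc
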